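import Pool.Agent.W325.KZ.Defs

set_option autoImplicit false

open Finset MeasureTheory ProbabilityTheory Filter Topology

namespace Pool.Agent.W822.KZ.Zone

open Pool.Agent.W325.KZ

/-- coefficient of the `r`-th derivative -/
noncomputable def cf (r k : ℕ) (x : ℝ) : ℝ := (k.descFactorial r : ℝ) * x ^ (k - r)

/-- the `r`-th derivative -/
noncomputable def P (D r : ℕ) (a : ℕ → ℝ) (x : ℝ) : ℝ := ∑ k ∈ range D, a k * cf r k x

lemma hasDerivAt_cf (r k : ℕ) (x : ℝ) : HasDerivAt (cf r k) (cf (r + 1) k x) x := by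
  unfold cf
  have h := (hasDerivAt_pow (k - r) x).const_mul ((k.descFactorial r : ℝ))
  refine h.congr_deriv ?_
  rw [Nat.descFactorial_succ]
  push_cast
  have : k - (r + 1) = k - r - 1 := by omega
  rw [this]
  ring

lemma hasDerivAt_P (D r : ℕ) (a : ℕ → ℝ) (x : ℝ) :
    HasDerivAt (P D r a) (P D (r + 1) a x) x := by
  unfold P
  exact HasDerivAt.fun_sum fun k _ => (hasDerivAt_cf r k x).const_mul (a k)

lemma P_zero (D : ℕ) (a : ℕ → ℝ) (x : ℝ) : P D 0 a x = pol a D x := by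
  unfold P pol cf
  simp

lemma P_one (D : ℕ) (a : ℕ → ℝ) (x : ℝ) : P D 1 a x = deriv (pol a D) x := by
  have h : pol a D = P D 0 a := by
    funext y
    exact (P_zero D a y).symm
  rw [h]
  exact (hasDerivAt_P D 0 a x).deriv.symm

lemma sum_cf_sq (hS : S_SUM) (r : ℕ) : ∃ C : ℝ, 0 < C ∧ ∀ (D : ℕ) (x S : ℝ), 0 ≤ x → x ≤ 1 →
    1 ≤ S → ((D : ℝ) ≤ 2 * S ∨ x ≤ 1 - 1 / (2 * S)) →
    ∑ k ∈ range D, (cf r k x) ^ 2 ≤ C * S ^ (2 * r + 1) := by
  obtain ⟨C₁, hC₁, h₁⟩ := hS (2 * r)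
  obtain ⟨C₀, hC₀, h₀⟩ := hS 0
  refine ⟨((r : ℝ) + 1) ^ (2 * r) * (C₁ + C₀), by positivity, ?_⟩
  intro D x S hx0 hx1 hS1 hD
  have hA := h₁ D x S hx0 hx1 hS1 hD
  have hB := h₀ D x S hx0 hx1 hS1 hD
  have key : ∀ j : ℕ, (cf r (r + j) x) ^ 2 ≤
      ((r : ℝ) + 1) ^ (2 * r) * ((j : ℝ) ^ (2 * r) * x ^ j + (j : ℝ) ^ 0 * x ^ j) := by
    intro j
    unfold cf
    have e1 : r + j - r = j := by omega
    rw [e1, mul_pow]
    have h1 : (((r + j).descFactorial r : ℕ) : ℝ) ≤ ((r : ℝ) + j) ^ r := by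
      have := Nat.descFactorial_le_pow (r + j) r
      calc (((r + j).descFactorial r : ℕ) : ℝ) ≤ (((r + j) ^ r : ℕ) : ℝ) := by exact_mod_cast this
        _ = _ := by push_cast; ring
    have h2 : (((r + j).descFactorial r : ℕ) : ℝ) ^ 2 ≤ ((r : ℝ) + j) ^ (2 * r) := by
      calc (((r + j).descFactorial r : ℕ) : ℝ) ^ 2 ≤ (((r : ℝ) + j) ^ r) ^ 2 := by gcongr
        _ = _ := by rw [← pow_mul, mul_comm]
    have h3 : ((r : ℝ) + j) ^ (2 * r) ≤ ((r : ℝ) + 1) ^ (2 * r) * ((j : ℝ) ^ (2 * r) + 1) := by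
      rcases Nat.eq_zero_or_pos j with hj | hj
      · subst hj
        have : ((r : ℝ) + ((0 : ℕ) : ℝ)) ^ (2 * r) ≤ ((r : ℝ) + 1) ^ (2 * r) := by
          gcongr
          simp
        have h0 : (0 : ℝ) ≤ ((0 : ℕ) : ℝ) ^ (2 * r) := by positivity
        have h5 : (0 : ℝ) ≤ ((r : ℝ) + 1) ^ (2 * r) := by positivity
        nlinarith
      · have hj' : (1 : ℝ) ≤ j := by exact_mod_cast hj
        have : (r : ℝ) + j ≤ ((r : ℝ) + 1) * j := by
          have : (0 : ℝ) ≤ r := by positivity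
          nlinarith
        calc ((r : ℝ) + j) ^ (2 * r) ≤ (((r : ℝ) + 1) * j) ^ (2 * r) := by gcongr
          _ = ((r : ℝ) + 1) ^ (2 * r) * (j : ℝ) ^ (2 * r) := by rw [mul_pow]
          _ ≤ _ := by
            gcongr
            linarith
    have h4 : (x ^ j) ^ 2 ≤ x ^ j := by
      have h0 : 0 ≤ x ^ j := by positivity
      have h1 : x ^ j ≤ 1 := pow_le_one₀ hx0 hx1
      nlinarith
    have h0 : 0 ≤ x ^ j := by positivity
    calc (((r + j).descFactorial r : ℕ) : ℝ) ^ 2 * (x ^ j) ^ 2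
        ≤ (((r : ℝ) + 1) ^ (2 * r) * ((j : ℝ) ^ (2 * r) + 1)) * x ^ j := by
          apply mul_le_mul (h2.trans h3) h4 (by positivity) (by positivity)
      _ = _ := by ring
  calc ∑ k ∈ range D, (cf r k x) ^ 2 ≤ ∑ k ∈ range (r + D), (cf r k x) ^ 2 := by
        apply Finset.sum_le_sum_of_subset_of_nonneg
        · intro k hk
          simp only [Finset.mem_range] at hk ⊢
          omega
        · intro k _ _
          positivity
    _ = ∑ k ∈ range r, (cf r k x) ^ 2 + ∑ j ∈ range D, (cf r (r + j) x) ^ 2 := by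
        rw [Finset.sum_range_add]
    _ = ∑ j ∈ range D, (cf r (r + j) x) ^ 2 := by
        rw [Finset.sum_eq_zero, zero_add]
        intro k hk
        unfold cf
        rw [Nat.descFactorial_of_lt (Finset.mem_range.1 hk)]
        simp
    _ ≤ ∑ j ∈ range D, ((r : ℝ) + 1) ^ (2 * r) *
          ((j : ℝ) ^ (2 * r) * x ^ j + (j : ℝ) ^ 0 * x ^ j) :=
        Finset.sum_le_sum fun j _ => key j
    _ = ((r : ℝ) + 1) ^ (2 * r) * (∑ j ∈ range D, (j : ℝ) ^ (2 * r) * x ^ j +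
          ∑ j ∈ range D, (j : ℝ) ^ 0 * x ^ j) := by
        rw [← Finset.mul_sum, Finset.sum_add_distrib]
    _ ≤ ((r : ℝ) + 1) ^ (2 * r) * (C₁ * S ^ (2 * r + 1) + C₀ * S ^ (0 + 1)) := by
        gcongr
    _ ≤ ((r : ℝ) + 1) ^ (2 * r) * (C₁ * S ^ (2 * r + 1) + C₀ * S ^ (2 * r + 1)) := by
        have : S ^ (0 + 1) ≤ S ^ (2 * r + 1) := pow_le_pow_right₀ hS1 (by omega)
        gcongr
    _ = _ := by ring

/-- first moment of a derivative -/
lemma moment (hL : S_L1) (D r : ℕ) (x V : ℝ) (h : ∑ k ∈ range D, (cf r k x) ^ 2 ≤ V) :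
    ∫⁻ a, ENNReal.ofReal |P D r a x| ∂ga ≤ ENNReal.ofReal (Real.sqrt V) := by
  refine (hL D fun k => cf r k x).trans ?_
  exact ENNReal.ofReal_le_ofReal (Real.sqrt_le_sqrt h)

lemma measurable_P (D r : ℕ) : Measurable fun z : (ℕ → ℝ) × ℝ => P D r z.1 z.2 := by
  unfold P cf
  fun_prop

/-- pathwise bound of the maximum -/
lemma sup_bound (D r : ℕ) (a : ℕ → ℝ) (α β x : ℝ) (hx : x ∈ Set.Icc α β) :
    ENNReal.ofReal |P D r a x| ≤ ENNReal.ofReal |P D r a α| +
      ∫⁻ y in Set.Icc α β, ENNReal.ofReal |P D (r + 1) a y| := by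
  have hcont : Continuous (P D (r + 1) a) := by
    unfold P cf
    fun_prop
  have h1 : ∫ y in α..x, P D (r + 1) a y = P D r a x - P D r a α :=
    intervalIntegral.integral_eq_sub_of_hasDerivAt (fun y _ => hasDerivAt_P D r a y)
      (hcont.intervalIntegrable _ _)
  rw [intervalIntegral.integral_of_le hx.1] at h1
  have h2 : ‖P D r a x - P D r a α‖ₑ ≤ ∫⁻ y in Set.Ioc α x, ‖P D (r + 1) a y‖ₑ := by
    rw [← h1]
    exact enorm_integral_le_lintegral_enorm _
  have h3 : ENNReal.ofReal |P D r a x| ≤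
      ENNReal.ofReal |P D r a α| + ENNReal.ofReal |P D r a x - P D r a α| := by
    rw [← ENNReal.ofReal_add (abs_nonneg _) (abs_nonneg _)]
    apply ENNReal.ofReal_le_ofReal
    have := abs_add_le (P D r a α) (P D r a x - P D r a α)
    rw [show P D r a α + (P D r a x - P D r a α) = P D r a x by ring] at this
    exact this
  refine h3.trans ?_
  gcongr
  rw [Real.enorm_eq_ofReal_abs] at h2
  refine h2.trans ?_
  have h4 : ∀ y, ‖P D (r + 1) a y‖ₑ = ENNReal.ofReal |P D (r + 1) a y| :=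
    fun y => Real.enorm_eq_ofReal_abs _
  simp only [h4]
  exact lintegral_mono_set (fun y hy => ⟨hy.1.le, hy.2.trans hx.2⟩)

/-- the random bound of the maximum -/
noncomputable def M (D r : ℕ) (α β : ℝ) (a : ℕ → ℝ) : ENNReal :=
  ENNReal.ofReal |P D r a α| + ∫⁻ y in Set.Icc α β, ENNReal.ofReal |P D (r + 1) a y|

lemma measurable_M (D r : ℕ) (α β : ℝ) : Measurable (M D r α β) := by
  unfold M
  refine Measurable.add (f := fun a => ENNReal.ofReal |P D r a α|)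
    (g := fun a => ∫⁻ y in Set.Icc α β, ENNReal.ofReal |P D (r + 1) a y|) ?_ ?_
  · have h := (measurable_P D r).comp (measurable_id.prodMk (measurable_const (a := α)))
    exact (measurable_norm.comp h).ennreal_ofReal
  · apply Measurable.lintegral_prod_right'
      (f := fun z : (ℕ → ℝ) × ℝ => ENNReal.ofReal |P D (r + 1) z.1 z.2|)
    exact (measurable_norm.comp (measurable_P D (r + 1))).ennreal_ofReal

lemma lintegral_M (hL : S_L1) (D r : ℕ) (α β V W : ℝ) (hαβ : α ≤ β)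
    (hV : ∑ k ∈ range D, (cf r k α) ^ 2 ≤ V)
    (hW : ∀ x ∈ Set.Icc α β, ∑ k ∈ range D, (cf (r + 1) k x) ^ 2 ≤ W) :
    ∫⁻ a, M D r α β a ∂ga ≤ ENNReal.ofReal (Real.sqrt V + Real.sqrt W * (β - α)) := by
  unfold M
  have hm : Measurable fun a : ℕ → ℝ => ENNReal.ofReal |P D r a α| := by
    have h := (measurable_P D r).comp (measurable_id.prodMk (measurable_const (a := α)))
    exact (measurable_norm.comp h).ennreal_ofReal
  rw [lintegral_add_left hm]
  rw [ENNReal.ofReal_add (Real.sqrt_nonneg _)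
    (mul_nonneg (Real.sqrt_nonneg _) (by linarith))]
  refine add_le_add (moment hL D r α V hV) ?_
  have hm2 : Measurable (fun z : (ℕ → ℝ) × ℝ => ENNReal.ofReal |P D (r + 1) z.1 z.2|) :=
    (measurable_norm.comp (measurable_P D (r + 1))).ennreal_ofReal
  rw [lintegral_lintegral_swap hm2.aemeasurable]
  calc ∫⁻ y in Set.Icc α β, ∫⁻ a, ENNReal.ofReal |P D (r + 1) a y| ∂ga
      ≤ ∫⁻ y in Set.Icc α β, ENNReal.ofReal (Real.sqrt W) := by
        apply setLIntegral_mono' measurableSet_Icc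
        intro y hy
        exact moment hL D (r + 1) y W (hW y hy)
    _ = _ := by
        rw [setLIntegral_const, Real.volume_Icc, ENNReal.ofReal_mul (Real.sqrt_nonneg _)]

/-- small value and small derivative at a grid point -/
lemma at_point (hJ : S_JD) (c : ℝ) (hc : 0 < c) (D : ℕ) (x s t : ℝ) (hs : 1 ≤ s) (ht : 0 < t)
    (hdet : c * (s ^ 2) ^ 4 ≤ (∑ k ∈ range D, (x ^ k) ^ 2) *
      (∑ k ∈ range D, ((k : ℝ) * x ^ (k - 1)) ^ 2) -
      (∑ k ∈ range D, x ^ k * ((k : ℝ) * x ^ (k - 1))) ^ 2) :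
    ga {a | |P D 0 a x| ≤ 2 * (t ^ 4 * s) ∧ |P D 1 a x| ≤ t * s ^ 3} ≤
      ENNReal.ofReal (2 * t ^ 5 / Real.sqrt c) := by
  have h := hJ D (fun k => x ^ k) (fun k => (k : ℝ) * x ^ (k - 1)) (2 * (t ^ 4 * s)) (t * s ^ 3)
    (c * (s ^ 2) ^ 4) (by positivity) (by positivity) (by positivity) hdet
  have e : {a : ℕ → ℝ | |P D 0 a x| ≤ 2 * (t ^ 4 * s) ∧ |P D 1 a x| ≤ t * s ^ 3} =
      {a | |∑ k ∈ range D, a k * x ^ k| ≤ 2 * (t ^ 4 * s) ∧
        |∑ k ∈ range D, a k * ((k : ℝ) * x ^ (k - 1))| ≤ t * s ^ 3} := by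
    ext a
    unfold P cf
    simp
  rw [e]
  refine h.trans (ENNReal.ofReal_le_ofReal ?_)
  have h1 : Real.sqrt (c * (s ^ 2) ^ 4) = Real.sqrt c * s ^ 4 := by
    rw [Real.sqrt_mul hc.le]
    congr 1
    rw [show (s ^ 2) ^ 4 = (s ^ 4) ^ 2 by ring]
    exact Real.sqrt_sq (by positivity)
  rw [h1]
  have hc' : 0 < Real.sqrt c := Real.sqrt_pos.2 hc
  have hs' : (0 : ℝ) < s := by linarith
  apply le_of_eq
  field_simp

/-- the main estimate -/
lemma main (hJ : S_JD) (hL : S_L1) (hS : S_SUM) (hD : S_DET) : ∃ C : ℝ, 1 ≤ C ∧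
    ∀ (D : ℕ) (α β s t : ℝ), 2 ≤ D → 0 ≤ α → α ≤ β → β ≤ 1 →
    1 ≤ s → s ^ 2 ≤ D → β - α ≤ 1 / s ^ 2 → 1 - 1 / s ^ 2 ≤ α →
    ((D : ℝ) ≤ 2 * s ^ 2 ∨ β ≤ 1 - 1 / (2 * s ^ 2)) → 0 < t → t ≤ 1 →
    ga {a | ∃ x ∈ Set.Icc α β, deriv (pol a D) x = 0 ∧ |pol a D x| ≤ t ^ 4 * s} ≤
      ENNReal.ofReal (C * t ^ 2) := by
  obtain ⟨C₂, hC₂, h₂⟩ := sum_cf_sq hS 2
  obtain ⟨C₃, hC₃, h₃⟩ := sum_cf_sq hS 3
  obtain ⟨c, hc, hdet⟩ := hD
  refine ⟨1 + Real.sqrt C₂ + Real.sqrt C₃ + 4 / Real.sqrt c, ?_, ?_⟩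
  · have h1 := Real.sqrt_nonneg C₂
    have h2 := Real.sqrt_nonneg C₃
    have h3 : 0 ≤ 4 / Real.sqrt c := by positivity
    linarith
  intro D α β s t hD2 hα hαβ hβ hs hsD hlen hα' hzone ht ht1
  have hs0 : (0 : ℝ) < s := by linarith
  have hS1 : (1 : ℝ) ≤ s ^ 2 := by nlinarith
  set K : ℝ := s ^ 5 / t ^ 2 with hK
  set w : ℝ := t ^ 3 / s ^ 2 with hw
  have hKpos : 0 < K := by positivity
  have hwpos : 0 < w := by positivity
  have hKw : K * w = t * s ^ 3 := by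
    rw [hK, hw]
    field_simp
  have hKww : K * w * w = t ^ 4 * s := by
    rw [hKw, hw]
    field_simp
  set n : ℕ := ⌊(β - α) / w⌋₊ with hn
  have hzone' : ∀ x ∈ Set.Icc α β, ((D : ℝ) ≤ 2 * s ^ 2 ∨ x ≤ 1 - 1 / (2 * s ^ 2)) := by
    intro x hx
    rcases hzone with h | h
    · exact Or.inl h
    · exact Or.inr (hx.2.trans h)
  -- grid points are in the interval
  have hgrid : ∀ i ∈ range (n + 1), α + i * w ∈ Set.Icc α β := by
    intro i hi
    have hi' : i ≤ n := by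
      have := Finset.mem_range.1 hi
      omega
    have h1 : (i : ℝ) ≤ (β - α) / w := by
      have h2 : (n : ℝ) ≤ (β - α) / w := Nat.floor_le (div_nonneg (by linarith) hwpos.le)
      have h3 : (i : ℝ) ≤ n := by exact_mod_cast hi'
      linarith
    rw [le_div_iff₀ hwpos] at h1
    constructor
    · have : 0 ≤ (i : ℝ) * w := by positivity
      linarith
    · linarith
  -- inclusion
  have hsub : {a : ℕ → ℝ | ∃ x ∈ Set.Icc α β, deriv (pol a D) x = 0 ∧ |pol a D x| ≤ t ^ 4 * s} ⊆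
      {a | ENNReal.ofReal K ≤ M D 2 α β a} ∪ ⋃ i ∈ range (n + 1),
        {a | |P D 0 a (α + i * w)| ≤ 2 * (t ^ 4 * s) ∧ |P D 1 a (α + i * w)| ≤ t * s ^ 3} := by
    rintro a ⟨x, hx, hx1, hx2⟩
    by_cases hM : ENNReal.ofReal K ≤ M D 2 α β a
    · exact Or.inl hM
    right
    have hM' : M D 2 α β a < ENNReal.ofReal K := not_le.1 hM
    have hsup : ∀ y ∈ Set.Icc α β, |P D 2 a y| ≤ K := by
      intro y hy
      have h1 := (sup_bound D 2 a α β y hy).trans_lt hM'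
      have h2 := (ENNReal.ofReal_lt_ofReal_iff hKpos).1 h1
      exact h2.le
    rw [← P_one] at hx1
    rw [← P_zero] at hx2
    -- the index
    set i : ℕ := ⌊(x - α) / w⌋₊ with hi
    have hi1 : (i : ℝ) ≤ (x - α) / w := Nat.floor_le (div_nonneg (by linarith [hx.1]) hwpos.le)
    have hi2 : (x - α) / w < i + 1 := Nat.lt_floor_add_one _
    rw [le_div_iff₀ hwpos] at hi1
    rw [div_lt_iff₀ hwpos] at hi2
    have hin : i ∈ range (n + 1) := by
      have : i ≤ n := Nat.floor_le_floor (by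
        gcongr
        exact hx.2)
      exact Finset.mem_range.2 (by omega)
    set y : ℝ := α + i * w with hy
    have hyx : y ≤ x := by linarith
    have hyw : x - y ≤ w := by linarith
    have hyI : y ∈ Set.Icc α β := hgrid i hin
    -- bounds of the derivative between `y` and `x`
    have hd1 : ∀ z ∈ Set.Icc y x, |P D 1 a z| ≤ K * w := by
      intro z hz
      have h1 : ‖P D 1 a x - P D 1 a z‖ ≤ K * ‖x - z‖ := by
        apply (convex_Icc α β).norm_image_sub_le_of_norm_hasDerivWithin_le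
          (fun y _ => (hasDerivAt_P D 1 a y).hasDerivWithinAt) (fun y hy => hsup y hy)
          ⟨hyI.1.trans hz.1, hz.2.trans hx.2⟩ hx
      rw [hx1, zero_sub, norm_neg, Real.norm_eq_abs, Real.norm_eq_abs,
        abs_of_nonneg (a := x - z) (by linarith [hz.2])] at h1
      refine h1.trans ?_
      gcongr
      linarith [hz.1]
    have hd0 : |P D 0 a y| ≤ 2 * (t ^ 4 * s) := by
      have h1 : ‖P D 0 a x - P D 0 a y‖ ≤ (K * w) * ‖x - y‖ := by
        apply (convex_Icc y x).norm_image_sub_le_of_norm_hasDerivWithin_le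
          (fun y _ => (hasDerivAt_P D 0 a y).hasDerivWithinAt) (fun y hy => hd1 y hy)
          ⟨le_refl _, hyx⟩ ⟨hyx, le_refl _⟩
      rw [Real.norm_eq_abs, Real.norm_eq_abs, abs_of_nonneg (a := x - y) (by linarith)] at h1
      have h2 : |P D 0 a x - P D 0 a y| ≤ t ^ 4 * s := by
        refine h1.trans ?_
        rw [← hKww]
        gcongr
      have h3 : |P D 0 a y| ≤ |P D 0 a x| + |P D 0 a x - P D 0 a y| := by
        have := abs_sub (P D 0 a x) (P D 0 a x - P D 0 a y)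
        rw [show P D 0 a x - (P D 0 a x - P D 0 a y) = P D 0 a y by ring] at this
        exact this
      linarith
    have hd1' : |P D 1 a y| ≤ t * s ^ 3 := by
      rw [← hKw]
      exact hd1 y ⟨le_refl _, hyx⟩
    exact Set.mem_biUnion hin ⟨hd0, hd1'⟩
  refine (measure_mono hsub).trans ((measure_union_le _ _).trans ?_)
  -- first part
  have hp1 : ga {a | ENNReal.ofReal K ≤ M D 2 α β a} ≤
      ENNReal.ofReal ((Real.sqrt C₂ + Real.sqrt C₃) * t ^ 2) := by
    have h1 := meas_ge_le_lintegral_div (μ := ga) (measurable_M D 2 α β).aemeasurable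
      (ε := ENNReal.ofReal K) (by simpa using hKpos) ENNReal.ofReal_ne_top
    refine h1.trans ?_
    have h2 : ∫⁻ a, M D 2 α β a ∂ga ≤
        ENNReal.ofReal ((Real.sqrt C₂ + Real.sqrt C₃) * s ^ 5) := by
      refine (lintegral_M hL D 2 α β (C₂ * (s ^ 2) ^ (2 * 2 + 1)) (C₃ * (s ^ 2) ^ (2 * 3 + 1)) hαβ
        (h₂ D α (s ^ 2) hα (hαβ.trans hβ) hS1 (hzone' α ⟨le_refl _, hαβ⟩))
        (fun x hx => h₃ D x (s ^ 2) (hα.trans hx.1) (hx.2.trans hβ) hS1 (hzone' x hx))).trans ?_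
      apply ENNReal.ofReal_le_ofReal
      have e1 : Real.sqrt (C₂ * (s ^ 2) ^ (2 * 2 + 1)) = Real.sqrt C₂ * s ^ 5 := by
        rw [Real.sqrt_mul hC₂.le]
        congr 1
        rw [show (s ^ 2) ^ (2 * 2 + 1) = (s ^ 5) ^ 2 by ring]
        exact Real.sqrt_sq (by positivity)
      have e2 : Real.sqrt (C₃ * (s ^ 2) ^ (2 * 3 + 1)) = Real.sqrt C₃ * s ^ 7 := by
        rw [Real.sqrt_mul hC₃.le]
        congr 1
        rw [show (s ^ 2) ^ (2 * 3 + 1) = (s ^ 7) ^ 2 by ring]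
        exact Real.sqrt_sq (by positivity)
      rw [e1, e2]
      have h3 : Real.sqrt C₃ * s ^ 7 * (β - α) ≤ Real.sqrt C₃ * s ^ 7 * (1 / s ^ 2) := by
        gcongr
      have h4 : Real.sqrt C₃ * s ^ 7 * (1 / s ^ 2) = Real.sqrt C₃ * s ^ 5 := by
        field_simp
      nlinarith
    calc (∫⁻ a, M D 2 α β a ∂ga) / ENNReal.ofReal K
        ≤ ENNReal.ofReal ((Real.sqrt C₂ + Real.sqrt C₃) * s ^ 5) / ENNReal.ofReal K := by
          gcongr
      _ = ENNReal.ofReal ((Real.sqrt C₂ + Real.sqrt C₃) * s ^ 5 / K) :=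
          (ENNReal.ofReal_div_of_pos hKpos).symm
      _ = _ := by
          congr 1
          rw [hK]
          field_simp
  -- second part
  have hp2 : ga (⋃ i ∈ range (n + 1),
        {a | |P D 0 a (α + i * w)| ≤ 2 * (t ^ 4 * s) ∧ |P D 1 a (α + i * w)| ≤ t * s ^ 3}) ≤
      ENNReal.ofReal (4 / Real.sqrt c * t ^ 2) := by
    refine (measure_biUnion_finset_le _ _).trans ?_
    have h1 : ∀ i ∈ range (n + 1),
        ga {a | |P D 0 a (α + i * w)| ≤ 2 * (t ^ 4 * s) ∧ |P D 1 a (α + i * w)| ≤ t * s ^ 3} ≤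
        ENNReal.ofReal (2 * t ^ 5 / Real.sqrt c) := by
      intro i hi
      have hI := hgrid i hi
      apply at_point hJ c hc D (α + i * w) s t hs ht
      exact hdet D (α + i * w) (s ^ 2) hD2 (hα.trans hI.1) (hI.2.trans hβ) hS1 hsD
        (hα'.trans hI.1)
    refine (Finset.sum_le_sum h1).trans ?_
    rw [Finset.sum_const, Finset.card_range, ← ENNReal.ofReal_nsmul]
    apply ENNReal.ofReal_le_ofReal
    rw [nsmul_eq_mul]
    have h2 : ((n + 1 : ℕ) : ℝ) ≤ 2 / t ^ 3 := by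
      have h3 : (n : ℝ) ≤ (β - α) / w := Nat.floor_le (div_nonneg (by linarith) hwpos.le)
      have h4 : (β - α) / w ≤ (1 / s ^ 2) / w := by gcongr
      have h5 : (1 / s ^ 2) / w = 1 / t ^ 3 := by
        rw [hw]
        field_simp
      have h6 : 1 ≤ 1 / t ^ 3 := by
        rw [le_div_iff₀ (by positivity), one_mul]
        exact pow_le_one₀ ht.le ht1
      have h7 : (2 : ℝ) / t ^ 3 = 1 / t ^ 3 + 1 / t ^ 3 := by ring
      push_cast
      rw [h7]
      linarith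
    have hcs : 0 < Real.sqrt c := Real.sqrt_pos.2 hc
    calc ((n + 1 : ℕ) : ℝ) * (2 * t ^ 5 / Real.sqrt c) ≤ 2 / t ^ 3 * (2 * t ^ 5 / Real.sqrt c) := by
          gcongr
      _ = 4 / Real.sqrt c * t ^ 2 := by
          field_simp
          ring
  refine (add_le_add hp1 hp2).trans ?_
  rw [← ENNReal.ofReal_add (by positivity) (by positivity)]
  apply ENNReal.ofReal_le_ofReal
  have : 0 ≤ t ^ 2 := by positivity
  nlinarith

/-- small critical values in one zone -/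
theorem zone (hJ : S_JD) (hL : S_L1) (hS : S_SUM) (hD : S_DET) : S_ZONE := by
  obtain ⟨C, hC1, hC⟩ := main hJ hL hS hD
  refine ⟨C, by linarith, ?_⟩
  have hpos : ∀ (D : ℕ) (α β S u : ℝ), 2 ≤ D → 0 ≤ α → α ≤ β → β ≤ 1 →
      1 ≤ S → S ≤ D → β - α ≤ 1 / S → 1 - 1 / S ≤ α →
      ((D : ℝ) ≤ 2 * S ∨ β ≤ 1 - 1 / (2 * S)) → 0 < u →
      ga {a | ∃ x ∈ Set.Icc α β, deriv (pol a D) x = 0 ∧ |pol a D x| ≤ u} ≤
        ENNReal.ofReal (C * Real.sqrt (u / Real.sqrt S)) := by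
    intro D α β S u hD2 hα hαβ hβ hS1 hSD hlen hα' hz hu
    set s : ℝ := Real.sqrt S with hs
    have hs2 : s ^ 2 = S := Real.sq_sqrt (by linarith)
    have hs1 : 1 ≤ s := by
      rw [hs]
      exact Real.one_le_sqrt.2 hS1
    have hs0 : 0 < s := by linarith
    set t : ℝ := Real.sqrt (Real.sqrt (u / s)) with ht
    have ht2 : t ^ 2 = Real.sqrt (u / s) := Real.sq_sqrt (Real.sqrt_nonneg _)
    have ht4 : t ^ 4 = u / s := by
      rw [show t ^ 4 = (t ^ 2) ^ 2 by ring, ht2]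
      exact Real.sq_sqrt (by positivity)
    have ht0 : 0 < t := by
      rw [ht]
      positivity
    have hus : t ^ 4 * s = u := by
      rw [ht4]
      field_simp
    rcases le_or_gt t 1 with ht1 | ht1
    · have h := hC D α β s t hD2 hα hαβ hβ hs1 (by rw [hs2]; exact hSD) (by rw [hs2]; exact hlen)
        (by rw [hs2]; exact hα') (by rw [hs2]; exact hz) ht0 ht1
      rw [hus, ht2] at h
      exact h
    · have h1 : 1 ≤ C * Real.sqrt (u / s) := by
        rw [← ht2]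
        have : 1 ≤ t ^ 2 := by nlinarith
        nlinarith
      calc _ ≤ (1 : ENNReal) := prob_le_one
        _ = ENNReal.ofReal 1 := by simp
        _ ≤ _ := ENNReal.ofReal_le_ofReal h1
  intro D α β S u hD2 hα hαβ hβ hS1 hSD hlen hα' hz hu
  rcases hu.lt_or_eq with hu' | hu'
  · exact hpos D α β S u hD2 hα hαβ hβ hS1 hSD hlen hα' hz hu'
  · subst hu'
    have hlim : Tendsto (fun v : ℝ => ENNReal.ofReal (C * Real.sqrt (v / Real.sqrt S)))
        (𝓝[>] 0) (𝓝 (ENNReal.ofReal (C * Real.sqrt (0 / Real.sqrt S)))) := by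
      apply Tendsto.mono_left _ nhdsWithin_le_nhds
      apply ENNReal.tendsto_ofReal
      have hc : Continuous fun v : ℝ => C * Real.sqrt (v / Real.sqrt S) := by fun_prop
      exact hc.tendsto 0
    apply ge_of_tendsto hlim
    filter_upwards [self_mem_nhdsWithin] with v hv
    refine (measure_mono ?_).trans (hpos D α β S v hD2 hα hαβ hβ hS1 hSD hlen hα' hz hv)
    rintro a ⟨x, hx, h1, h2⟩
    exact ⟨x, hx, h1, h2.trans (le_of_lt hv)⟩

end Pool.Agent.W822.KZ.Zone
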